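import Pool.Agent.Lib.MP_755262_lc.UM.Main

open Pool.Agent.Lib.MP_755262_lc.UM in
/-- A deterministic online unique-maximum colouring of points on a line with respect to all
intervals, from relative positions only, with colours between one and `C log n`. -/
theorem Pool.Agent.Results.MP_755262_lc.UniqueMax.result :
    ∃ A : List ℕ → ℕ, ∃ C : ℝ, (∀ l, 1 ≤ A l) ∧
    ∀ x : ℕ → ℝ, Function.Injective x → ∀ n : ℕ,
      (∀ I : Set ℝ, I.OrdConnected → (∃ i, i < n ∧ x i ∈ I) →
        ∃ i, i < n ∧ x i ∈ I ∧ ∀ j, j < n → x j ∈ I → j ≠ i →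
          A ((List.range (j + 1)).map (rank x)) < A ((List.range (i + 1)).map (rank x))) ∧
      (2 ≤ n → ∀ i, i < n → (A ((List.range (i + 1)).map (rank x)) : ℝ) ≤ C * Real.log n) :=
  main
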